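import Pool.Agent.W533.LP.Stm
import Pool.Agent.W533.LP.Stm3

set_option autoImplicit false

/-!
# Localisation of the optimal path
-/

namespace Pool.Agent.W575.LP.Loc

open MeasureTheory ProbabilityTheory Pool.Agent.W533.LP

/-! ### locality, rotation -/

theorem G_congr {I J : ℕ → ℕ} {W W' : ℕ → ℕ → ℕ} : ∀ {m n : ℕ},
    (∀ i < m, ∀ j < n, W i j = W' i j) → G I J W m n = G I J W' m n
  | 0, 0, _ => by simp [G]
  | i + 1, 0, _ => by
    simp only [G]
    rw [G_congr (m := i) (n := 0) (by intro i _ j hj; omega)]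
  | 0, j + 1, _ => by
    simp only [G]
    rw [G_congr (m := 0) (n := j) (by intro i hi; omega)]
  | i + 1, j + 1, h => by
    simp only [G]
    rw [G_congr (m := i) (n := j + 1) (fun a ha b hb => h a (by omega) b hb),
      G_congr (m := i + 1) (n := j) (fun a ha b hb => h a ha b (by omega)),
      h i (by omega) j (by omega)]

theorem T_congr {W W' : ℕ → ℕ → ℕ} {m n : ℕ} (h : ∀ i < m, ∀ j < n, W i j = W' i j) :
    T W m n = T W' m n := G_congr h

theorem rot_rot (m n : ℕ) (W : ℕ → ℕ → ℕ) : rot m n (rot m n W) = W := by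
  funext i j
  unfold rot
  by_cases h : i < m ∧ j < n
  · have h' : m - 1 - i < m ∧ n - 1 - j < n := by omega
    rw [if_pos h, if_pos h']
    congr 1 <;> omega
  · rw [if_neg h, if_neg h]

/-! ### re-indexing -/

theorem GeoFam.comp {Ω ι ι' : Type} [MeasurableSpace Ω] {μ : Measure Ω} {p : ι → ℝ}
    {X : ι → Ω → ℕ} (h : GeoFam μ p X) (σ : ι' → ι) (hσ : Function.Injective σ) {p' : ι' → ℝ}
    {X' : ι' → Ω → ℕ} (hp : ∀ i, p' i = p (σ i)) (hX : ∀ i, X' i = X (σ i)) :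
    GeoFam μ p' X' := by
  have hp' : p' = fun i => p (σ i) := funext hp
  have hX' : X' = fun i => X (σ i) := funext hX
  subst hp' hX'
  exact ⟨h.prob, fun i => h.pos _, fun i => h.meas _, h.indep.precomp hσ, fun i k => h.law _ k⟩

/-- Two independent bulk environments. -/
def Pair {Ω : Type} [MeasurableSpace Ω] (μ : Measure Ω) (q : ℝ) (U V : ℕ → ℕ → Ω → ℕ) : Prop :=
  GeoFam μ (fun _ : (ℕ × ℕ) ⊕ (ℕ × ℕ) => q)
    (Sum.elim (fun v => U v.1 v.2) (fun v => V v.1 v.2))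

/-- The event. -/
def Ev {Ω : Type} (U V : ℕ → ℕ → Ω → ℕ) (p r m n K : ℕ) : Set Ω :=
  {ω | ∃ k, K ≤ k ∧ k < m ∧
    Tr V m n ω + Tr U p r ω ≤ Tr (shr k 0 V) (m - k) n ω + Tr U (p + k) r ω}

/-- transfer of the probabilities of events -/
theorem transfer (hT : PTransfer) {Ω Ω' ι : Type} [MeasurableSpace Ω] [MeasurableSpace Ω']
    [Countable ι] (μ : Measure Ω) (μ' : Measure Ω') (p : ι → ℝ) (X : ι → Ω → ℕ) (Y : ι → Ω' → ℕ)
    (h : GeoFam μ p X) (h' : GeoFam μ' p Y) (S : Set (ι → ℕ)) (hS : MeasurableSet S) :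
    μ.real {ω | (fun i => X i ω) ∈ S} = μ'.real {ω | (fun i => Y i ω) ∈ S} := by
  have h1 := hT μ μ' p X Y h h'
  have hX : Measurable (fun ω i => X i ω) := measurable_pi_iff.2 h.meas
  have hY : Measurable (fun ω i => Y i ω) := measurable_pi_iff.2 h'.meas
  have h2 := map_measureReal_apply (μ := μ) hX hS
  have h3 := map_measureReal_apply (μ := μ') hY hS
  rw [h1] at h2
  exact h2.symm.trans h3

theorem meas_Tr (hA : AMeas) {Ω : Type} [MeasurableSpace Ω] (W : ℕ → ℕ → Ω → ℕ)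
    (h : ∀ i j, Measurable (W i j)) (m n : ℕ) : Measurable (Tr W m n) := by
  have := hA.2.1 (zr : ℕ → Ω → ℕ) zr W (fun _ => measurable_const) (fun _ => measurable_const)
    h m n
  exact this

theorem meas_Ev (hA : AMeas) {Ω : Type} [MeasurableSpace Ω] (U V : ℕ → ℕ → Ω → ℕ)
    (hU : ∀ i j, Measurable (U i j)) (hV : ∀ i j, Measurable (V i j)) (p r m n K : ℕ) :
    MeasurableSet (Ev U V p r m n K) := by
  have : Ev U V p r m n K = ⋃ k ∈ {k | K ≤ k ∧ k < m}, {ω | Tr V m n ω + Tr U p r ω ≤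
      Tr (shr k 0 V) (m - k) n ω + Tr U (p + k) r ω} := by
    ext ω
    simp only [Ev, Set.mem_ofPred_eq, Set.mem_iUnion, exists_prop, and_assoc]
  rw [this]
  refine MeasurableSet.biUnion (Set.to_countable _) fun k _ => ?_
  exact measurableSet_le ((meas_Tr hA V hV m n).add (meas_Tr hA U hU p r))
    ((meas_Tr hA _ (fun i j => hV _ _) _ n).add (meas_Tr hA U hU _ r))

/-! ### the new boundary -/

/-- horizontal boundary made of the increments on the row `r` -/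
def newI {Ω : Type} (I J : ℕ → Ω → ℕ) (U : ℕ → ℕ → Ω → ℕ) (Z : ℕ → Ω → ℕ) (p r m : ℕ) :
    ℕ → Ω → ℕ :=
  fun i => if 1 ≤ i ∧ i ≤ m then Ninc I J U r (p + (i - 1)) else Z i

/-- re-indexing -/
def sig (p r m : ℕ) : ℕ ⊕ ℕ ⊕ (ℕ × ℕ) ⊕ Empty → Fin (p + m) ⊕ Fin r ⊕ (ℕ ⊕ ℕ ⊕ (ℕ × ℕ))
  | Sum.inl i => if h : 1 ≤ i ∧ i ≤ m then Sum.inl ⟨p + (i - 1), by omega⟩
      else Sum.inr (Sum.inr (Sum.inl i))
  | Sum.inr (Sum.inl j) => Sum.inr (Sum.inr (Sum.inr (Sum.inl j)))
  | Sum.inr (Sum.inr (Sum.inl v)) => Sum.inr (Sum.inr (Sum.inr (Sum.inr v)))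
  | Sum.inr (Sum.inr (Sum.inr e)) => e.elim

theorem sig_inj (p r m : ℕ) : Function.Injective (sig p r m) := by
  intro a b hab
  rcases a with i | j | v | e
  · rcases b with i' | j' | v' | e'
    · simp only [sig] at hab
      split_ifs at hab with h1 h2 h2
      · simp only [Sum.inl.injEq, Fin.mk.injEq] at hab
        congr 1
        omega
      · simp only [Sum.inr.injEq, Sum.inl.injEq] at hab
        rw [hab]
    · simp only [sig] at hab
      split_ifs at hab with h1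
      simp at hab
    · simp only [sig] at hab
      split_ifs at hab with h1
      simp at hab
    · exact e'.elim
  · rcases b with i' | j' | v' | e'
    · simp only [sig] at hab
      split_ifs at hab with h1
      simp at hab
    · simpa [sig] using hab
    · simp [sig] at hab
    · exact e'.elim
  · rcases b with i' | j' | v' | e'
    · simp only [sig] at hab
      split_ifs at hab with h1
      simp at hab
    · simp [sig] at hab
    · simpa [sig] using hab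
    · exact e'.elim
  · exact e.elim

/-- parameters of the spectators -/
noncomputable def cc (q a : ℝ) : ℕ ⊕ ℕ ⊕ (ℕ × ℕ) → ℝ
  | Sum.inl _ => a
  | Sum.inr (Sum.inl _) => q / a
  | Sum.inr (Sum.inr _) => q

theorem newSys (hB : PBurke) {Ω : Type} [MeasurableSpace Ω] (μ : Measure Ω) (q a : ℝ)
    (I J : ℕ → Ω → ℕ) (U : ℕ → ℕ → Ω → ℕ) (X : ℕ ⊕ ℕ ⊕ (ℕ × ℕ) → Ω → ℕ) (h0 : 0 < q)
    (h1 : q < a) (h2 : a < 1) (hS : Sys μ q a I J U (cc q a) X) (p r m : ℕ) :
    Sys0 μ q a (newI I J U (fun i => X (Sum.inl i)) p r m) (fun j => X (Sum.inr (Sum.inl j)))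
      (fun i j => X (Sum.inr (Sum.inr (i, j)))) := by
  have h := hB μ q a I J U (cc q a) X h0 h1 h2 hS (p + m) r
  refine GeoFam.comp h (sig p r m) (sig_inj p r m) ?_ ?_
  · rintro (i | j | v | e)
    · simp only [par, sig]
      split_ifs with h3 <;> simp [cc]
    · simp [par, sig, cc]
    · simp [par, sig, cc]
    · exact e.elim
  · rintro (i | j | v | e)
    · simp only [fam, sig, newI]
      split_ifs with h3 <;> simp
    · simp [fam, sig]
    · simp [fam, sig]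
    · exact e.elim

theorem telescope (hA : AMeas) {Ω : Type} (I J : ℕ → Ω → ℕ) (U : ℕ → ℕ → Ω → ℕ) (p r : ℕ)
    (ω : Ω) (k : ℕ) : Gr I J U (p + k) r ω = Gr I J U p r ω +
      ∑ i ∈ Finset.range k, Ninc I J U r (p + i) ω := by
  induction k with
  | zero => simp
  | succ k ih =>
    rw [Finset.sum_range_succ]
    have h1 : Gr I J U (p + k) r ω ≤ Gr I J U (p + k + 1) r ω := (hA.2.2 _ _ _ _ _).1
    have h2 : Ninc I J U r (p + k) ω = Gr I J U (p + k + 1) r ω - Gr I J U (p + k) r ω := rfl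
    have h3 : Gr I J U (p + (k + 1)) r ω = Gr I J U (p + k + 1) r ω := rfl
    omega

theorem ps_newI {Ω : Type} (I J : ℕ → Ω → ℕ) (U : ℕ → ℕ → Ω → ℕ) (Z : ℕ → Ω → ℕ) (p r m : ℕ)
    (ω : Ω) (k : ℕ) (hk : k ≤ m) :
    ∑ i ∈ Finset.range k, Ninc I J U r (p + i) ω ≤
      ps (fun i => newI I J U Z p r m i ω) (k + 1) := by
  unfold ps
  rw [Finset.sum_range_succ']
  refine le_trans (le_of_eq ?_) (Nat.le_add_right _ _)
  refine Finset.sum_congr rfl fun i hi => ?_
  have hi' := Finset.mem_range.1 hi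
  simp only [newI]
  rw [if_pos (by omega)]
  simp

/-- The key estimate. -/
theorem key (hFB : PFB) (hSW : PSW) (hB : PBurke) (hT : PTransfer) (hSys : ASys) (hO : AOps)
    (hA : AMeas) (hSand : DSand) (q : ℝ) (hq0 : 0 < q) (hq1 : q < 1) :
    ∃ C : ℝ, 1 ≤ C ∧ ∀ {Ω : Type} [MeasurableSpace Ω] (μ : Measure Ω) (U V : ℕ → ℕ → Ω → ℕ),
      Pair μ q U V → ∀ (δ : ℝ) (p r m n K : ℕ), 0 < δ → δ ≤ dd q → 1 ≤ r → r ≤ 2 * p →
      p ≤ 2 * r → C * |(p : ℝ) - r| ≤ r * δ → 1 ≤ n → n ≤ 2 * m → m ≤ 2 * n →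
      C * ((n : ℝ) ^ (2 / 3 : ℝ) + |(m : ℝ) - n| + n * δ) ≤ K →
      μ.real (Ev U V p r m n K) ≤ C / (δ ^ 3 * r) + C * (n : ℝ) ^ 2 / (K : ℝ) ^ 3 := by
  obtain ⟨C₁, hC₁, h1⟩ := hFB q hq0 hq1
  obtain ⟨C₂, hC₂, h2⟩ := hSW q hq0 hq1
  refine ⟨max C₁ C₂, le_max_of_le_left hC₁, ?_⟩
  intro Ω _ μ U V hUV δ p r m n K hδ0 hδ hr hrp hpr hprδ hn hnm hmn hK
  have hs0 : 0 < Real.sqrt q := Real.sqrt_pos.2 hq0
  have hsq : q = Real.sqrt q ^ 2 := (Real.sq_sqrt hq0.le).symm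
  have hs1 : Real.sqrt q < 1 := by
    rw [Real.sqrt_lt' one_pos]; simpa using hq1
  have hqs : q < Real.sqrt q := by nlinarith
  have hd1 : dd q ≤ (1 - Real.sqrt q) / 4 := by
    unfold dd
    exact div_le_div_of_nonneg_right (min_le_right _ _) (by norm_num)
  set a := Real.sqrt q + δ with ha
  have hqa : q < a := by linarith
  have ha1 : a < 1 := by linarith
  have ha0 : 0 < a := by linarith
  obtain ⟨Ω', hΩ', μ', I, J, U', X, hS⟩ := hSys q a (cc q a) hq0 hqa ha1 (by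
    rintro (i | j | v)
    · exact ⟨ha0.le, ha1⟩
    · exact ⟨(div_pos hq0 ha0).le, (div_lt_one ha0).2 hqa⟩
    · exact ⟨hq0.le, hq1⟩)
  set V' : ℕ → ℕ → Ω' → ℕ := fun i j => X (Sum.inr (Sum.inr (i, j))) with hV'
  haveI := hS.prob
  -- transfer
  have hUV' : Pair μ' q U' V' := by
    refine GeoFam.comp hS (fun x : (ℕ × ℕ) ⊕ (ℕ × ℕ) => match x with
      | Sum.inl v => Sum.inr (Sum.inr (Sum.inl v))
      | Sum.inr v => Sum.inr (Sum.inr (Sum.inr (Sum.inr (Sum.inr v))))) ?_ ?_ ?_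
    · rintro (v | v) (v' | v') hv
      · simp only [Sum.inr.injEq, Sum.inl.injEq] at hv
        rw [hv]
      · simp at hv
      · simp at hv
      · simp only [Sum.inr.injEq] at hv
        rw [hv]
    · rintro (v | v)
      · rfl
      · rfl
    · rintro (v | v)
      · rfl
      · rfl
  have htr : μ.real (Ev U V p r m n K) = μ'.real (Ev U' V' p r m n K) := by
    have := transfer hT μ μ' _ _ _ hUV hUV'
      (Ev (fun i j (x : (ℕ × ℕ) ⊕ (ℕ × ℕ) → ℕ) => x (Sum.inl (i, j)))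
        (fun i j (x : (ℕ × ℕ) ⊕ (ℕ × ℕ) → ℕ) => x (Sum.inr (i, j))) p r m n K)
      (meas_Ev hA _ _ (fun i j => measurable_pi_apply _) (fun i j => measurable_pi_apply _)
        p r m n K)
    exact this
  rw [htr]
  have hsub : Ev U' V' p r m n K ⊆ {ω | Gr I zr U' p r ω < Gr zr J U' p r ω} ∪
      {ω | ∃ z, K ≤ z ∧ z < m ∧ Tr V' m n ω ≤
        ps (fun i => newI I J U' (fun i => X (Sum.inl i)) p r m i ω) (z + 1) +
          Tr (shr z 0 V') (m - z) n ω} := by
    rintro ω ⟨k, hk1, hk2, hk3⟩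
    by_cases hE : Gr I zr U' p r ω < Gr zr J U' p r ω
    · exact Or.inl hE
    · right
      refine ⟨k, hk1, hk2, ?_⟩
      have h3 := (hSand (fun i => I i ω) (fun j => J j ω) (fun i j => U' i j ω) p r).1
        (not_lt.1 hE) k
      have h4 := telescope hA I J U' p r ω k
      have h5 := ps_newI I J U' (fun i => X (Sum.inl i)) p r m ω k hk2.le
      have h6 : Tr U' (p + k) r ω + Gr I J U' p r ω ≤ Gr I J U' (p + k) r ω + Tr U' p r ω := h3
      omega
  have hsys0 := ((hO μ' q).1 a I J U' (cc q a) X hS).1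
  have hnew := newSys hB μ' q a I J U' X hq0 hqa ha1 hS p r m
  have hle1 : C₁ ≤ max C₁ C₂ := le_max_left _ _
  have hle2 : C₂ ≤ max C₁ C₂ := le_max_right _ _
  have hr' : (0 : ℝ) < r := by exact_mod_cast hr
  have e1 : μ'.real {ω | Gr I zr U' p r ω < Gr zr J U' p r ω} ≤ C₂ / (δ ^ 3 * r) := by
    refine (h2 μ' δ I J U' p r hδ0 hδ hr hrp hpr ?_).1 hsys0
    exact (mul_le_mul_of_nonneg_right hle2 (abs_nonneg _)).trans hprδ
  have e2 : μ'.real {ω | ∃ z, K ≤ z ∧ z < m ∧ Tr V' m n ω ≤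
        ps (fun i => newI I J U' (fun i => X (Sum.inl i)) p r m i ω) (z + 1) +
          Tr (shr z 0 V') (m - z) n ω} ≤ C₁ * (n : ℝ) ^ 2 / (K : ℝ) ^ 3 := by
    refine h1 μ' a _ _ V' m n K ?_ hn hnm hmn ?_ hnew
    · rw [ha]; simpa [abs_of_pos hδ0] using hδ
    · have h3 : |a - Real.sqrt q| = δ := by rw [ha]; simp [abs_of_pos hδ0]
      rw [h3]
      refine le_trans ?_ hK
      have : 0 ≤ (n : ℝ) ^ (2 / 3 : ℝ) + |(m : ℝ) - n| + n * δ := by positivity
      exact mul_le_mul_of_nonneg_right hle1 this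
  calc μ'.real (Ev U' V' p r m n K) ≤ _ := measureReal_mono hsub
    _ ≤ _ := measureReal_union_le _ _
    _ ≤ C₂ / (δ ^ 3 * r) + C₁ * (n : ℝ) ^ 2 / (K : ℝ) ^ 3 := add_le_add e1 e2
    _ ≤ _ := by gcongr

/-! ### the decomposition -/

/-- rows below `M` from `A`, rows from `M` on from `B` -/
def comb {Ω : Type} (M : ℕ) (A B : ℕ → ℕ → Ω → ℕ) : ℕ → ℕ → Ω → ℕ :=
  fun i j => if j < M then A i j else B i (j - M)

theorem comb_bulk {Ω : Type} [MeasurableSpace Ω] {μ : Measure Ω} {q : ℝ} {A B : ℕ → ℕ → Ω → ℕ}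
    (h : Pair μ q A B) (M : ℕ) : Bulk μ q (comb M A B) := by
  refine GeoFam.comp h (fun v : ℕ × ℕ => if v.2 < M then Sum.inl v else Sum.inr (v.1, v.2 - M))
    ?_ (fun _ => rfl) ?_
  · rintro ⟨i, j⟩ ⟨i', j'⟩ hij
    simp only at hij
    split_ifs at hij with h1 h2 h2
    · simpa using hij
    · simp only [Sum.inr.injEq, Prod.mk.injEq] at hij
      simp only [Prod.mk.injEq]
      omega
  · rintro ⟨i, j⟩
    simp only [comb]
    split_ifs with h1 <;> simp

theorem pair_right {Ω : Type} [MeasurableSpace Ω] {μ : Measure Ω} {q : ℝ}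
    {A B : ℕ → ℕ → Ω → ℕ} (h : Pair μ q A B) (M : ℕ) : Pair μ q A (shr M 0 B) := by
  refine GeoFam.comp h (fun x : (ℕ × ℕ) ⊕ (ℕ × ℕ) => match x with
      | Sum.inl v => Sum.inl v
      | Sum.inr v => Sum.inr (v.1 + M, v.2)) ?_ (fun _ => rfl) ?_
  · rintro (v | v) (v' | v') hv
    · simpa using hv
    · simp at hv
    · simp at hv
    · simp only [Sum.inr.injEq, Prod.mk.injEq] at hv
      rw [Sum.inr.injEq]
      ext
      · omega
      · omega
  · rintro (v | v) <;> simp [shr]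

/-- rotation as a map of indices -/
def rix (m n : ℕ) (v : ℕ × ℕ) : ℕ × ℕ :=
  if v.1 < m ∧ v.2 < n then (m - 1 - v.1, n - 1 - v.2) else v

theorem rix_rix (m n : ℕ) (v : ℕ × ℕ) : rix m n (rix m n v) = v := by
  unfold rix
  by_cases h : v.1 < m ∧ v.2 < n
  · rw [if_pos h]
    have h' : (m - 1 - v.1, n - 1 - v.2).1 < m ∧ (m - 1 - v.1, n - 1 - v.2).2 < n := by
      simp only
      omega
    rw [if_pos h']
    ext
    · simp only; omega
    · simp only; omega
  · rw [if_neg h, if_neg h]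

theorem rix_inj (m n : ℕ) : Function.Injective (rix m n) :=
  Function.LeftInverse.injective (rix_rix m n)

/-- rotated environment -/
def rotr {Ω : Type} (m n : ℕ) (A : ℕ → ℕ → Ω → ℕ) : ℕ → ℕ → Ω → ℕ :=
  fun i j => A (rix m n (i, j)).1 (rix m n (i, j)).2

theorem rotr_eq {Ω : Type} (m n : ℕ) (A : ℕ → ℕ → Ω → ℕ) (ω : Ω) :
    (fun i j => rotr m n A i j ω) = rot m n (fun i j => A i j ω) := by
  funext i j
  simp only [rotr, rot, rix]
  split_ifs with h <;> rfl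

theorem pair_left {Ω : Type} [MeasurableSpace Ω] {μ : Measure Ω} {q : ℝ}
    {A B : ℕ → ℕ → Ω → ℕ} (h : Pair μ q A B) (m n m' n' : ℕ) :
    Pair μ q (rotr m n B) (rotr m' n' A) := by
  refine GeoFam.comp h (fun x : (ℕ × ℕ) ⊕ (ℕ × ℕ) => match x with
      | Sum.inl v => Sum.inr (rix m n v)
      | Sum.inr v => Sum.inl (rix m' n' v)) ?_ (fun _ => rfl) ?_
  · rintro (v | v) (v' | v') hv
    · simp only [Sum.inr.injEq] at hv
      rw [rix_inj _ _ hv]
    · simp at hv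
    · simp at hv
    · simp only [Sum.inl.injEq] at hv
      rw [rix_inj _ _ hv]
  · rintro (v | v) <;> simp [rotr]

/-- The event of the theorem. -/
def EvL {Ω : Type} (W : ℕ → ℕ → Ω → ℕ) (N M K : ℕ) : Set Ω :=
  {ω | ∃ z < N, (M + K ≤ z ∨ z + K ≤ M) ∧
    Tr W (M + 1) M ω + Tr (shr M M W) (N - M) (N - M) ω
      ≤ Tr W (z + 1) M ω + Tr (shr z M W) (N - z) (N - M) ω}

theorem meas_EvL (hA : AMeas) {Ω : Type} [MeasurableSpace Ω] (W : ℕ → ℕ → Ω → ℕ)
    (hW : ∀ i j, Measurable (W i j)) (N M K : ℕ) : MeasurableSet (EvL W N M K) := by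
  have : EvL W N M K = ⋃ z ∈ {z | z < N ∧ (M + K ≤ z ∨ z + K ≤ M)},
      {ω | Tr W (M + 1) M ω + Tr (shr M M W) (N - M) (N - M) ω
      ≤ Tr W (z + 1) M ω + Tr (shr z M W) (N - z) (N - M) ω} := by
    ext ω
    simp only [EvL, Set.mem_ofPred_eq, Set.mem_iUnion, exists_prop, and_assoc]
  rw [this]
  refine MeasurableSet.biUnion (Set.to_countable _) fun k _ => ?_
  exact measurableSet_le ((meas_Tr hA W hW _ _).add (meas_Tr hA _ (fun i j => hW _ _) _ _))
    ((meas_Tr hA W hW _ _).add (meas_Tr hA _ (fun i j => hW _ _) _ _))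

theorem EvL_sub (hRot : DRot) {Ω : Type} (A B : ℕ → ℕ → Ω → ℕ) (N M K : ℕ) (hM : M ≤ N) :
    EvL (comb M A B) N M K ⊆ Ev A (shr M 0 B) (M + 1) M (N - M) (N - M) K ∪
      Ev (rotr N (N - M) B) (rotr (M + 1) M A) (N - M) (N - M) (M + 1) M K := by
  rintro ω ⟨z, hzN, hz, hle⟩
  -- the lower part
  have hlow : ∀ a, Tr (comb M A B) a M ω = Tr A a M ω := by
    intro a
    apply T_congr
    intro i _ j hj
    simp [comb, hj]
  have hup : ∀ x a b, Tr (shr x M (comb M A B)) a b ω = Tr (shr x 0 B) a b ω := by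
    intro x a b
    apply T_congr
    intro i _ j hj
    simp [comb, shr]
  rw [hlow, hlow, hup, hup] at hle
  rcases hz with hz | hz
  · left
    obtain ⟨k, rfl⟩ : ∃ k, z = M + k := ⟨z - M, by omega⟩
    refine ⟨k, by omega, by omega, ?_⟩
    have h1 : Tr (shr k 0 (shr M 0 B)) (N - M - k) (N - M) ω =
        Tr (shr (M + k) 0 B) (N - (M + k)) (N - M) ω := by
      have : N - M - k = N - (M + k) := by omega
      rw [this]
      apply T_congr
      intro i _ j _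
      simp only [shr, Nat.add_zero]
      congr 1
      omega
    rw [h1]
    have h2 : M + 1 + k = M + k + 1 := by omega
    rw [h2]
    omega
  · right
    obtain ⟨k, hk⟩ : ∃ k, k + z = M := ⟨M - z, by omega⟩
    refine ⟨k, by omega, by omega, ?_⟩
    -- upper part
    have h1 : ∀ x ≤ N, Tr (shr x 0 B) (N - x) (N - M) ω =
        Tr (rotr N (N - M) B) (N - x) (N - M) ω := by
      intro x hx
      have := hRot (fun i j => B i j ω) N (N - M) x 0 hx (Nat.zero_le _)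
      rw [Nat.sub_zero] at this
      unfold Tr
      rw [rotr_eq, this]
      rfl
    have h2 : ∀ x ≤ M + 1, Tr A (M + 1 - x) M ω =
        Tr (shr x 0 (rotr (M + 1) M A)) (M + 1 - x) M ω := by
      intro x hx
      have := hRot (fun i j => rotr (M + 1) M A i j ω) (M + 1) M x 0 hx (Nat.zero_le _)
      rw [Nat.sub_zero, rotr_eq, rot_rot] at this
      unfold Tr
      rw [this]
      apply T_congr
      intro i _ j _
      simp only [sh, shr]
      rw [← rotr_eq]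
    have h3 := h1 M hM
    have h4 := h1 z (by omega)
    have h5 := h2 0 (by omega)
    have h6 := h2 k (by omega)
    have h7 : M + 1 - k = z + 1 := by omega
    have h8 : N - M + k = N - z := by omega
    rw [h7] at h6
    rw [h7, h8, ← h4, ← h6, ← h3]
    have h9 : Tr (rotr (M + 1) M A) (M + 1) M ω = Tr A (M + 1) M ω := h5.symm
    rw [h9]
    omega

/-- Localisation of the optimal path. -/
theorem pLoc (hFB : PFB) (hSW : PSW) (hB : PBurke) (hT : PTransfer) (hEx : PExist) (hSys : ASys)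
    (hO : AOps) (hA : AMeas) (hSand : DSand) (hRot : DRot) : PLoc := by
  intro q ε hq0 hq1 hε
  obtain ⟨C, hC, hkey⟩ := key hFB hSW hB hT hSys hO hA hSand q hq0 hq1
  have hC0 : 0 < C := by linarith
  have hs1 : Real.sqrt q < 1 := by
    rw [Real.sqrt_lt' one_pos]; simpa using hq1
  have hs0 : 0 < Real.sqrt q := Real.sqrt_pos.2 hq0
  have hsq : Real.sqrt q ^ 2 = q := Real.sq_sqrt hq0.le
  have hdd : 0 < dd q := by
    unfold dd
    apply div_pos _ (by norm_num)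
    apply lt_min
    · nlinarith
    · linarith
  set b : ℝ := max 1 (12 * C / ε) with hb
  have hb1 : 1 ≤ b := le_max_left _ _
  have hb2 : 12 * C / ε ≤ b := le_max_right _ _
  set B : ℝ := max (C * (2 + b)) (max 1 (4 * C / ε)) with hBdef
  have hB1 : C * (2 + b) ≤ B := le_max_left _ _
  have hB2 : 1 ≤ B := (le_max_left _ _).trans (le_max_right _ _)
  have hB3 : 4 * C / ε ≤ B := (le_max_right _ _).trans (le_max_right _ _)
  -- the size of `N`
  set s₀ : ℝ := max 1 (max (b / dd q) (3 * C)) with hs₀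
  refine ⟨B, by linarith, max 3 ⌈s₀ ^ 3⌉₊, ?_⟩
  intro N hN Ω _ μ W hW
  have hN3 : 3 ≤ N := (le_max_left _ _).trans hN
  have hNs : s₀ ^ 3 ≤ N := (Nat.le_ceil _).trans (by exact_mod_cast (le_max_right _ _).trans hN)
  have hN0 : (0 : ℝ) < N := by
    have : (3 : ℝ) ≤ N := by exact_mod_cast hN3
    linarith
  set s : ℝ := (N : ℝ) ^ (1 / 3 : ℝ) with hs
  have hspos : 0 < s := Real.rpow_pos_of_pos hN0 _
  have hs3 : s ^ 3 = N := by
    rw [hs, ← Real.rpow_natCast, ← Real.rpow_mul hN0.le]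
    norm_num
  have hs2 : (N : ℝ) ^ (2 / 3 : ℝ) = s ^ 2 := by
    rw [hs, ← Real.rpow_natCast, ← Real.rpow_mul hN0.le]
    norm_num
  have hs₀1 : 1 ≤ s₀ := le_max_left _ _
  have hss : s₀ ≤ s := by
    rw [← hs3] at hNs
    exact le_of_pow_le_pow_left₀ (by norm_num) hspos.le hNs
  have hs1' : 1 ≤ s := hs₀1.trans hss
  have hsb : b / dd q ≤ s := ((le_max_left _ _).trans (le_max_right _ _)).trans hss
  have hsC : 3 * C ≤ s := ((le_max_right _ _).trans (le_max_right _ _)).trans hss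
  set M := N / 2 with hM
  have hMN : M ≤ N := Nat.div_le_self _ _
  have hM1 : 1 ≤ M := by omega
  have hM2 : 2 * M ≤ N := by omega
  have hM3 : N ≤ 2 * M + 1 := by omega
  set K : ℕ := ⌈B * s ^ 2⌉₊ with hK
  have hKle : B * s ^ 2 ≤ K := Nat.le_ceil _
  have hKpos : 0 < B * s ^ 2 := by positivity
  set δ : ℝ := b / s with hδ
  have hδ0 : 0 < δ := by positivity
  have hδd : δ ≤ dd q := by
    rw [hδ, div_le_iff₀ hspos]
    rw [div_le_iff₀ hdd] at hsb
    linarith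
  -- the event
  have hsub : {ω | ∃ z < N, B * (N : ℝ) ^ (2 / 3 : ℝ) ≤ |(z : ℝ) - (M : ℝ)| ∧
    Tr W (M + 1) M ω + Tr (shr M M W) (N - M) (N - M) ω
      ≤ Tr W (z + 1) M ω + Tr (shr z M W) (N - z) (N - M) ω} ⊆ EvL W N M K := by
    rintro ω ⟨z, hz1, hz2, hz3⟩
    refine ⟨z, hz1, ?_, hz3⟩
    rw [hs2] at hz2
    rcases le_total (M : ℝ) z with h | h
    · left
      have h' : M ≤ z := by exact_mod_cast h
      rw [abs_of_nonneg (by linarith)] at hz2
      have : K ≤ z - M := by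
        rw [hK]
        apply Nat.ceil_le.2
        rw [Nat.cast_sub h']
        exact hz2
      omega
    · right
      have h' : z ≤ M := by exact_mod_cast h
      rw [abs_of_nonpos (by linarith)] at hz2
      have : K ≤ M - z := by
        rw [hK]
        apply Nat.ceil_le.2
        rw [Nat.cast_sub h']
        linarith
      omega
  haveI := hW.prob
  refine (measureReal_mono hsub).trans ?_
  -- transfer
  obtain ⟨Ω', hΩ', μ', X, hX⟩ := hEx ((ℕ × ℕ) ⊕ (ℕ × ℕ)) (fun _ => q) (fun _ => ⟨hq0.le, hq1⟩)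
  set A₁ : ℕ → ℕ → Ω' → ℕ := fun i j => X (Sum.inl (i, j)) with hA₁
  set A₂ : ℕ → ℕ → Ω' → ℕ := fun i j => X (Sum.inr (i, j)) with hA₂
  have hP : Pair μ' q A₁ A₂ := by
    refine GeoFam.comp hX id Function.injective_id (fun _ => rfl) ?_
    rintro (v | v) <;> simp [hA₁, hA₂]
  haveI := hP.prob
  have htr : μ.real (EvL W N M K) = μ'.real (EvL (comb M A₁ A₂) N M K) := by
    have := transfer hT μ μ' _ _ _ hW (comb_bulk hP M)
      (EvL (fun i j (x : ℕ × ℕ → ℕ) => x (i, j)) N M K)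
      (meas_EvL hA _ (fun i j => measurable_pi_apply _) N M K)
    exact this
  rw [htr]
  have hthird : ∀ r : ℕ, M ≤ r → (N : ℝ) / 3 ≤ r := by
    intro r hr
    have : N ≤ 3 * r := by omega
    have h' : (N : ℝ) ≤ 3 * r := by exact_mod_cast this
    linarith
  have hrδ : ∀ r : ℕ, M ≤ r → C ≤ r * δ := by
    intro r hr
    have h1 := hthird r hr
    have h2 : (N : ℝ) / 3 * δ ≤ r * δ := mul_le_mul_of_nonneg_right h1 hδ0.le
    refine le_trans ?_ h2
    rw [hδ, ← hs3]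
    have : s ^ 3 / 3 * (b / s) = b * s ^ 2 / 3 := by field_simp
    rw [this]
    nlinarith [mul_le_mul hb1 (le_refl (s ^ 2)) (by positivity) (by linarith),
      mul_le_mul hs1' hsC (by linarith) (by linarith)]
  have hA1 : ∀ r : ℕ, M ≤ r → C / (δ ^ 3 * r) ≤ ε / 4 := by
    intro r hr
    have h1 := hthird r hr
    have h2 : b ^ 3 / 3 ≤ δ ^ 3 * r := by
      calc b ^ 3 / 3 = δ ^ 3 * ((N : ℝ) / 3) := by
            rw [hδ, ← hs3]; field_simp
        _ ≤ _ := mul_le_mul_of_nonneg_left h1 (by positivity)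
    have h3 : b ≤ b ^ 3 := by nlinarith [mul_le_mul hb1 hb1 (by norm_num) (by linarith)]
    rw [div_le_iff₀ (lt_of_lt_of_le (by positivity) h2)]
    rw [div_le_iff₀ hε] at hb2
    nlinarith [mul_le_mul_of_nonneg_left h2 hε.le, mul_le_mul_of_nonneg_left h3 hε.le]
  have hA2 : ∀ n : ℕ, n ≤ N → C * (n : ℝ) ^ 2 / (K : ℝ) ^ 3 ≤ ε / 4 := by
    intro n hn
    have hn' : (n : ℝ) ≤ N := by exact_mod_cast hn
    have h1 : (B * s ^ 2) ^ 3 ≤ (K : ℝ) ^ 3 := by gcongr
    have h2 : C * (n : ℝ) ^ 2 ≤ C * (N : ℝ) ^ 2 := by gcongr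
    rw [div_le_iff₀ (lt_of_lt_of_le (by positivity) h1)]
    have h3 : (B * s ^ 2) ^ 3 = B ^ 3 * (N : ℝ) ^ 2 := by rw [← hs3]; ring
    have h4 : B ≤ B ^ 3 := by nlinarith [mul_le_mul hB2 hB2 (by norm_num) (by linarith)]
    rw [div_le_iff₀ hε] at hB3
    have h5 : 4 * C ≤ ε * B ^ 3 := by nlinarith
    have h6 : ε / 4 * (B ^ 3 * (N : ℝ) ^ 2) ≤ ε / 4 * (K : ℝ) ^ 3 := by
      rw [← h3]; gcongr
    have h7 : C * (N : ℝ) ^ 2 ≤ ε / 4 * (B ^ 3 * (N : ℝ) ^ 2) := by
      nlinarith [mul_le_mul_of_nonneg_right h5 (sq_nonneg (N : ℝ))]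
    linarith
  have hA3 : ∀ (n : ℕ) (x : ℝ), n ≤ N → |x| ≤ 1 →
      C * ((n : ℝ) ^ (2 / 3 : ℝ) + |x| + n * δ) ≤ K := by
    intro n x hn hx
    have hn' : (n : ℝ) ≤ N := by exact_mod_cast hn
    have h1 : (n : ℝ) ^ (2 / 3 : ℝ) ≤ s ^ 2 := by
      rw [← hs2]
      exact Real.rpow_le_rpow (Nat.cast_nonneg _) hn' (by norm_num)
    have h2 : (n : ℝ) * δ ≤ b * s ^ 2 := by
      calc (n : ℝ) * δ ≤ N * δ := mul_le_mul_of_nonneg_right hn' hδ0.le
        _ = b * s ^ 2 := by rw [hδ, ← hs3]; field_simp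
    have h3 : (1 : ℝ) ≤ s ^ 2 := one_le_pow₀ hs1'
    have h4 : C * ((n : ℝ) ^ (2 / 3 : ℝ) + |x| + n * δ) ≤ C * (s ^ 2 + s ^ 2 + b * s ^ 2) := by
      apply mul_le_mul_of_nonneg_left _ hC0.le
      linarith
    have h5 : C * (s ^ 2 + s ^ 2 + b * s ^ 2) = C * (2 + b) * s ^ 2 := by ring
    have h6 : C * (2 + b) * s ^ 2 ≤ B * s ^ 2 := by gcongr
    linarith
  have e1 : μ'.real (Ev A₁ (shr M 0 A₂) (M + 1) M (N - M) (N - M) K) ≤ ε / 4 + ε / 4 := by
    refine (hkey μ' A₁ (shr M 0 A₂) (pair_right hP M) δ (M + 1) M (N - M) (N - M) K hδ0 hδd hM1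
      (by omega) (by omega) ?_ (by omega) (by omega) (by omega) ?_).trans ?_
    · have : |((M + 1 : ℕ) : ℝ) - M| = 1 := by push_cast; simp
      rw [this, mul_one]
      exact hrδ M le_rfl
    · have := hA3 (N - M) (((N - M : ℕ) : ℝ) - ((N - M : ℕ) : ℝ)) (Nat.sub_le _ _) (by simp)
      exact this
    · exact add_le_add (hA1 M le_rfl) (hA2 (N - M) (Nat.sub_le _ _))
  have e2 : μ'.real (Ev (rotr N (N - M) A₂) (rotr (M + 1) M A₁) (N - M) (N - M) (M + 1) M K)
      ≤ ε / 4 + ε / 4 := by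
    refine (hkey μ' _ _ (pair_left hP N (N - M) (M + 1) M) δ (N - M) (N - M) (M + 1) M K hδ0 hδd
      (by omega) (by omega) (by omega) ?_ hM1 (by omega) (by omega) ?_).trans ?_
    · simp only [sub_self, abs_zero, mul_zero]
      positivity
    · exact hA3 M (((M + 1 : ℕ) : ℝ) - M) hMN (by push_cast; simp)
    · exact add_le_add (hA1 (N - M) (by omega)) (hA2 M hMN)
  calc μ'.real (EvL (comb M A₁ A₂) N M K) ≤ _ := measureReal_mono (EvL_sub hRot A₁ A₂ N M K hMN)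
    _ ≤ _ := measureReal_union_le _ _
    _ ≤ (ε / 4 + ε / 4) + (ε / 4 + ε / 4) := add_le_add e1 e2
    _ = ε := by ring

end Pool.Agent.W575.LP.Loc
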